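import Pool.Agent.helper29.NS.SpecC

/-!
# Project ns, module CG: the force is curl free where the mean vanishes
-/

set_option linter.all false

namespace NS

open MeasureTheory Filter Topology Set

theorem CG_const {U : Set (ℝ × ℝ × ℝ)} (hU : IsOpen U) {f g : ℝ × ℝ × ℝ → ℝ} {c : ℝ}
    (hg : Differentiable ℝ g) (h : ∀ z ∈ U, f z = c * g z) :
    (∀ z ∈ U, dt f z = c * dt g z) ∧ (∀ z ∈ U, dx f z = c * dx g z) ∧
      ∀ z ∈ U, dy f z = c * dy g z := by
  have key : ∀ z ∈ U, ∀ v, fderiv ℝ f z v = c * fderiv ℝ g z v := by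
    intro z hz v
    have h1 : f =ᶠ[𝓝 z] fun z => c * g z := by
      filter_upwards [hU.mem_nhds hz] with w hw using h w hw
    rw [h1.fderiv_eq, fderiv_const_mul (hg z)]
    rfl
  exact ⟨fun z hz => key z hz _, fun z hz => key z hz _, fun z hz => key z hz _⟩

theorem CG_circ {Ω : Set (ℝ × ℝ)} {R : ℝ} (hop : IsOpen Ω) (hoc : OuterCircle Ω R) {q : ℝ × ℝ}
    (hq : q ∈ Circ R) : q ∈ frontier Ω := by
  have hR := hoc.pos
  have hq' : q.1 ^ 2 + q.2 ^ 2 = R ^ 2 := hq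
  rw [frontier, hop.interior_eq]
  refine ⟨?_, fun h => ?_⟩
  · obtain ⟨r, hr0, hrR, hring⟩ := hoc.ring
    have h1 : (1 : ℝ) ∈ closure (Ioo (r / R) 1) := by
      rw [closure_Ioo (ne_of_lt ((div_lt_one hR).2 hrR))]
      exact ⟨((div_lt_one hR).2 hrR).le, le_rfl⟩
    have hc : Continuous fun s : ℝ => s • q := by fun_prop
    have h2 : (fun s : ℝ => s • q) 1 ∈ closure ((fun s : ℝ => s • q) '' Ioo (r / R) 1) :=
      image_closure_subset_closure_image hc ⟨1, h1, rfl⟩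
    simp only [one_smul] at h2
    refine closure_mono ?_ h2
    rintro _ ⟨s, ⟨hs1, hs2⟩, rfl⟩
    refine hring ?_
    have hs0 : 0 ≤ s := le_trans (div_nonneg hr0 hR.le) hs1.le
    have h3 : r < s * R := (div_lt_iff₀ hR).1 hs1
    have h4 : (s * q.1) ^ 2 + (s * q.2) ^ 2 = (s * R) ^ 2 := by
      rw [mul_pow, mul_pow, mul_pow, ← mul_add, hq']
    refine ⟨?_, ?_⟩
    · show r ^ 2 < (s * q.1) ^ 2 + (s * q.2) ^ 2
      rw [h4]
      nlinarith
    · show (s * q.1) ^ 2 + (s * q.2) ^ 2 < R ^ 2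
      rw [h4]
      have : s * R < R := by nlinarith
      have h5 : 0 ≤ s * R := mul_nonneg hs0 hR.le
      nlinarith
  · have := hoc.ins q h
    linarith

theorem CG_ring_open (ρ R : ℝ) : IsOpen (Ring ρ R) := by
  have h1 : IsOpen {q : ℝ × ℝ | ρ ^ 2 < q.1 ^ 2 + q.2 ^ 2} :=
    isOpen_lt continuous_const (by fun_prop)
  have h2 : IsOpen {q : ℝ × ℝ | q.1 ^ 2 + q.2 ^ 2 < R ^ 2} :=
    isOpen_lt (by fun_prop) continuous_const
  exact h1.inter h2

theorem CG_c1 {f : ℝ × ℝ × ℝ → ℝ} {n : ℕ} (hf : ContDiff ℝ (n + 1 : ℕ) f) (v : ℝ × ℝ × ℝ) :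
    ContDiff ℝ n (fun z => fderiv ℝ f z v) :=
  (hf.fderiv_right (m := (n : ℕ)) (by exact_mod_cast le_refl (n + 1))).clm_apply contDiff_const

theorem CG (hCU : CU_stmt) (hRR : RR_stmt) : CG_stmt := by
  intro Ω ν R t1 G a1 b1 a2 b2 a b m n hCD ρ α β hρ hρR hαβ hring hmn q hq
  have hRI := hCU Ω ν R t1 G a1 b1 a2 b2 a b m n hCD ρ α β hρ hρR hring hmn
  set t := (α + β) / 2 with ht
  have htI : t ∈ Ioo α β := ⟨by rw [ht]; linarith, by rw [ht]; linarith⟩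
  -- regularity
  have ca : ContDiff ℝ 3 a := hCD.dmm.ca
  have cb : ContDiff ℝ 3 b := hCD.dmm.cb
  have da : Differentiable ℝ a := ca.differentiable (by norm_num)
  have db : Differentiable ℝ b := cb.differentiable (by norm_num)
  have cdya : ContDiff ℝ 2 (dy a) := CG_c1 (n := 2) (by exact_mod_cast ca) _
  have cdxb : ContDiff ℝ 2 (dx b) := CG_c1 (n := 2) (by exact_mod_cast cb) _
  have cw : ContDiff ℝ 2 (vort a b) := cdxb.sub cdya
  have dw : Differentiable ℝ (vort a b) := cw.differentiable (by norm_num)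
  have cwx : ContDiff ℝ 1 (dx (vort a b)) := CG_c1 (n := 1) (by exact_mod_cast cw) _
  have cwy : ContDiff ℝ 1 (dy (vort a b)) := CG_c1 (n := 1) (by exact_mod_cast cw) _
  have dwx : Differentiable ℝ (dx (vort a b)) := cwx.differentiable (by norm_num)
  have dwy : Differentiable ℝ (dy (vort a b)) := cwy.differentiable (by norm_num)
  -- RR at time `t`
  have hdiv : ∀ q ∈ Ring ρ R, dx a (t, q) + dy b (t, q) = 0 := by
    intro q hq
    have h1 := hCD.d1 t q (hring hq)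
    have h2 := hCD.d2 t q (hring hq)
    have e1 : dx a (t, q) = dx a1 (t, q) - dx a2 (t, q) := by
      rw [hCD.ha]
      show fderiv ℝ (fun z => a1 z - a2 z) (t, q) _ = _
      rw [fderiv_fun_sub (hCD.ca1.differentiable (by norm_num) _)
        (hCD.ca2.differentiable (by norm_num) _)]
      rfl
    have e2 : dy b (t, q) = dy b1 (t, q) - dy b2 (t, q) := by
      rw [hCD.hb]
      show fderiv ℝ (fun z => b1 z - b2 z) (t, q) _ = _
      rw [fderiv_fun_sub (hCD.cb1.differentiable (by norm_num) _)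
        (hCD.cb2.differentiable (by norm_num) _)]
      rfl
    rw [e1, e2]
    linarith
  have hcirc : ∀ q ∈ Circ R, a (t, q) = 0 ∧ b (t, q) = 0 := by
    intro q hq
    have hf := CG_circ hCD.op hCD.oc hq
    have h1 := hCD.z1 t q hf
    have h2 := hCD.z2 t q hf
    rw [hCD.ha, hCD.hb]
    simp only
    rw [h1.1, h1.2, h2.1, h2.2]
    simp
  have hRIt : RI {t} (Ring ρ R) a b := by
    intro γ s hs p hp
    have hs' : s = t := hs
    rw [hs']
    exact hRI γ t htI p hp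
  have hrr := (hRR R ρ t a b hρ hρR (ca.of_le (by norm_num)) (cb.of_le (by norm_num)) hRIt hdiv
    hcirc q hq).2.1
  -- the window
  have hU : IsOpen (Ioo α β ×ˢ Ring ρ R) := isOpen_Ioo.prod (CG_ring_open ρ R)
  have hz : ((t, q) : ℝ × ℝ × ℝ) ∈ Ioo α β ×ˢ Ring ρ R := ⟨htI, hq⟩
  have ea1 : ∀ z ∈ Ioo α β ×ˢ Ring ρ R, a1 z = (1 / 2) * a z := by
    rintro ⟨s, p⟩ ⟨hs, hp⟩
    have h1 := (hmn s hs p hp).1
    rw [hCD.hm] at h1
    rw [hCD.ha]
    simp only at h1 ⊢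
    linarith
  have eb1 : ∀ z ∈ Ioo α β ×ˢ Ring ρ R, b1 z = (1 / 2) * b z := by
    rintro ⟨s, p⟩ ⟨hs, hp⟩
    have h1 := (hmn s hs p hp).2
    rw [hCD.hn] at h1
    rw [hCD.hb]
    simp only at h1 ⊢
    linarith
  have ea2 : ∀ z ∈ Ioo α β ×ˢ Ring ρ R, a2 z = (-(1 / 2)) * a z := by
    rintro ⟨s, p⟩ ⟨hs, hp⟩
    have h1 := (hmn s hs p hp).1
    rw [hCD.hm] at h1
    rw [hCD.ha]
    simp only at h1 ⊢
    linarith
  have eb2 : ∀ z ∈ Ioo α β ×ˢ Ring ρ R, b2 z = (-(1 / 2)) * b z := by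
    rintro ⟨s, p⟩ ⟨hs, hp⟩
    have h1 := (hmn s hs p hp).2
    rw [hCD.hn] at h1
    rw [hCD.hb]
    simp only at h1 ⊢
    linarith
  have hw1 : ∀ z ∈ Ioo α β ×ˢ Ring ρ R, vort a1 b1 z = (1 / 2) * vort a b z := by
    intro z hz
    unfold vort
    rw [(CG_const hU db eb1).2.1 z hz, (CG_const hU da ea1).2.2 z hz]
    ring
  have hw2 : ∀ z ∈ Ioo α β ×ˢ Ring ρ R, vort a2 b2 z = (-(1 / 2)) * vort a b z := by
    intro z hz
    unfold vort
    rw [(CG_const hU db eb2).2.1 z hz, (CG_const hU da ea2).2.2 z hz]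
    ring
  obtain ⟨t1', x1, y1⟩ := CG_const hU dw hw1
  obtain ⟨t2', x2, y2⟩ := CG_const hU dw hw2
  have xx1 := (CG_const hU dwx x1).2.1 _ hz
  have yy1 := (CG_const hU dwy y1).2.2 _ hz
  have xx2 := (CG_const hU dwx x2).2.1 _ hz
  have yy2 := (CG_const hU dwy y2).2.2 _ hz
  have g1 := hCD.v1 t q (hring hq)
  have g2 := hCD.v2 t q (hring hq)
  unfold lap at g1 g2
  rw [t1' _ hz, x1 _ hz, y1 _ hz, xx1, yy1, ea1 _ hz, eb1 _ hz] at g1
  rw [t2' _ hz, x2 _ hz, y2 _ hz, xx2, yy2, ea2 _ hz, eb2 _ hz] at g2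
  linarith

end NS
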